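import Mathlib

/-!
# Integer solutions of `x²y + y²z + z²x = 1`

As a quadratic equation in `z` the discriminant is `y⁴ - 4x³y + 4x`, which lies strictly between the
neighbouring squares `(y² - 2)²`, `(y² + 2)²` of the right parity if `|y| > |x|³ + 1`.  So each
coordinate of a solution bounds the other two: `|y| ≤ |x|³ + 1` and `|z| ≤ |x|⁵ + 3x² + 1`.
-/

set_option autoImplicit false

namespace Pool.Agent.Results.MP_e005ea_nt.FiniteFibres

theorem bound_y {x y z : ℤ} (h : x ^ 2 * y + y ^ 2 * z + z ^ 2 * x = 1) (hx : x ≠ 0) :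
    |y| ≤ |x| ^ 3 + 1 := by
  have hX : 1 ≤ |x| := Int.one_le_abs hx
  by_cases h1 : x ^ 2 * y = 1
  · have hy : y ∣ 1 := ⟨x ^ 2, by rw [mul_comm]; exact h1.symm⟩
    have hy1 : |y| ≤ 1 := by
      rcases Int.isUnit_iff.1 (isUnit_of_dvd_one hy) with h2 | h2 <;> simp [h2]
    have : (0 : ℤ) ≤ |x| ^ 3 := by positivity
    linarith
  obtain ⟨w, hw⟩ : ∃ w : ℤ, w = 2 * x * z + y ^ 2 := ⟨_, rfl⟩
  have hw2 : w ^ 2 = (y ^ 2) ^ 2 + 4 * (x * (1 - x ^ 2 * y)) := by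
    rw [hw]
    have : z ^ 2 * x = 1 - x ^ 2 * y - y ^ 2 * z := by linarith
    calc (2 * x * z + y ^ 2) ^ 2 = 4 * x * (z ^ 2 * x) + 4 * x * z * y ^ 2 + (y ^ 2) ^ 2 := by ring
      _ = _ := by rw [this]; ring
  have hD : x * (1 - x ^ 2 * y) ≠ 0 := by
    apply mul_ne_zero hx
    intro h2
    apply h1
    linarith
  have ha : |w| ^ 2 = (y ^ 2) ^ 2 + 4 * (x * (1 - x ^ 2 * y)) := by rw [sq_abs]; exact hw2
  have hpar : ∃ t : ℤ, |w| = y ^ 2 + 2 * t := by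
    rcases abs_choice w with h2 | h2
    · exact ⟨x * z, by rw [h2, hw]; ring⟩
    · exact ⟨-(x * z) - y ^ 2, by rw [h2, hw]; ring⟩
  obtain ⟨t, ht⟩ := hpar
  have hw0 : 0 ≤ |w| := abs_nonneg w
  have hy0 : 0 ≤ y ^ 2 := sq_nonneg y
  have ht0 : t ≠ 0 := by
    rintro rfl
    rw [ht] at ha
    apply hD
    linarith
  have hDabs : y ^ 2 - 1 ≤ |x * (1 - x ^ 2 * y)| := by
    rcases lt_or_gt_of_ne ht0 with h2 | h2
    · have h3 : |w| ≤ y ^ 2 - 2 := by linarith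
      have h4 : |w| ^ 2 ≤ (y ^ 2 - 2) ^ 2 := pow_le_pow_left₀ hw0 h3 2
      have h5 : -(x * (1 - x ^ 2 * y)) ≤ |x * (1 - x ^ 2 * y)| := neg_le_abs _
      nlinarith
    · have h3 : y ^ 2 + 2 ≤ |w| := by linarith
      have h4 : (y ^ 2 + 2) ^ 2 ≤ |w| ^ 2 := pow_le_pow_left₀ (by linarith) h3 2
      have h5 : x * (1 - x ^ 2 * y) ≤ |x * (1 - x ^ 2 * y)| := le_abs_self _
      nlinarith
  have hub : |x * (1 - x ^ 2 * y)| ≤ |x| + |x| ^ 3 * |y| := by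
    calc |x * (1 - x ^ 2 * y)| = |x + -(x ^ 3 * y)| := by ring_nf
      _ ≤ |x| + |-(x ^ 3 * y)| := abs_add_le _ _
      _ = |x| + |x| ^ 3 * |y| := by rw [abs_neg, abs_mul, abs_pow]
  by_contra hcon
  push Not at hcon
  have h6 : |x| ^ 3 + 2 ≤ |y| := by linarith
  have h7 : |x| ≤ |x| ^ 3 := by nlinarith [sq_nonneg (|x|)]
  have h8 : y ^ 2 = |y| * |y| := by rw [← sq, sq_abs]
  nlinarith [abs_nonneg y]

theorem bound_z {x y z : ℤ} (h : x ^ 2 * y + y ^ 2 * z + z ^ 2 * x = 1) (hx : x ≠ 0) :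
    |z| ≤ |x| ^ 5 + 3 * |x| ^ 2 + 1 := by
  have hX : 1 ≤ |x| := Int.one_le_abs hx
  by_cases hy : y = 0
  · subst hy
    have hz : z ∣ 1 := ⟨z * x, by linarith⟩
    have hz1 : |z| ≤ 1 := by
      rcases Int.isUnit_iff.1 (isUnit_of_dvd_one hz) with h2 | h2 <;> simp [h2]
    have : (0 : ℤ) ≤ |x| ^ 5 + 3 * |x| ^ 2 := by positivity
    linarith
  have hY : 1 ≤ |y| := Int.one_le_abs hy
  have hb := bound_y h hx
  obtain ⟨w, hw⟩ : ∃ w : ℤ, w = 2 * x * z + y ^ 2 := ⟨_, rfl⟩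
  have hw2 : w ^ 2 = (y ^ 2) ^ 2 + 4 * (x * (1 - x ^ 2 * y)) := by
    rw [hw]
    have : z ^ 2 * x = 1 - x ^ 2 * y - y ^ 2 * z := by linarith
    calc (2 * x * z + y ^ 2) ^ 2 = 4 * x * (z ^ 2 * x) + 4 * x * z * y ^ 2 + (y ^ 2) ^ 2 := by ring
      _ = _ := by rw [this]; ring
  have hub : x * (1 - x ^ 2 * y) ≤ |x| + |x| ^ 3 * |y| := by
    calc x * (1 - x ^ 2 * y) ≤ |x * (1 - x ^ 2 * y)| := le_abs_self _
      _ = |x + -(x ^ 3 * y)| := by ring_nf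
      _ ≤ |x| + |-(x ^ 3 * y)| := abs_add_le _ _
      _ = |x| + |x| ^ 3 * |y| := by rw [abs_neg, abs_mul, abs_pow]
  have h8 : y ^ 2 = |y| ^ 2 := (sq_abs y).symm
  have hX3 : |x| ≤ |x| ^ 3 := by nlinarith [sq_nonneg (|x|)]
  have hX30 : 1 ≤ |x| ^ 3 := by linarith
  have hwle : |w| ≤ y ^ 2 + 2 * |x| ^ 3 := by
    apply abs_le_of_sq_le_sq _ (by positivity)
    rw [hw2]
    have e1 : (y ^ 2 + 2 * |x| ^ 3) ^ 2 = (y ^ 2) ^ 2 + 4 * (|x| ^ 3 * y ^ 2 + (|x| ^ 3) ^ 2) := by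
      ring
    rw [e1]
    have e2 : |x| ^ 3 * |y| ≤ |x| ^ 3 * y ^ 2 := by
      apply mul_le_mul_of_nonneg_left _ (by positivity)
      rw [h8]
      nlinarith
    have e3 : |x| ≤ (|x| ^ 3) ^ 2 := by nlinarith
    linarith
  have h9 : |2 * x * z| ≤ |w| + y ^ 2 := by
    have : 2 * x * z = w + -(y ^ 2) := by rw [hw]; ring
    rw [this]
    calc |w + -(y ^ 2)| ≤ |w| + |-(y ^ 2)| := abs_add_le _ _
      _ = |w| + y ^ 2 := by rw [abs_neg, abs_of_nonneg (sq_nonneg y)]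
  have h10 : |2 * x * z| = 2 * (|x| * |z|) := by
    rw [abs_mul, abs_mul]
    norm_num
    ring
  have h11 : |x| * |z| ≤ y ^ 2 + |x| ^ 3 := by linarith
  have h12 : y ^ 2 ≤ (|x| ^ 3 + 1) ^ 2 := by
    rw [h8]
    exact pow_le_pow_left₀ (abs_nonneg y) hb 2
  have h13 : |x| * |z| ≤ |x| * (|x| ^ 5 + 3 * |x| ^ 2 + 1) := by
    calc |x| * |z| ≤ (|x| ^ 3 + 1) ^ 2 + |x| ^ 3 := by linarith
      _ = |x| * (|x| ^ 5 + 3 * |x| ^ 2) + 1 := by ring
      _ ≤ |x| * (|x| ^ 5 + 3 * |x| ^ 2) + |x| := by linarith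
      _ = _ := by ring
  exact le_of_mul_le_mul_left h13 (by linarith)

/-- the solutions -/
def Sol : Set (ℤ × ℤ × ℤ) :=
  {p | p.1 ^ 2 * p.2.1 + p.2.1 ^ 2 * p.2.2 + p.2.2 ^ 2 * p.1 = 1}

theorem fin_x (c : ℤ) : {p : ℤ × ℤ × ℤ | p ∈ Sol ∧ p.1 = c}.Finite := by
  obtain ⟨B, hB⟩ : ∃ B : ℤ, B = |c| ^ 5 + 3 * |c| ^ 2 + |c| ^ 3 + 2 := ⟨_, rfl⟩
  apply Set.Finite.subset ((Set.finite_singleton c).prod
    ((Set.finite_Icc (-B) B).prod (Set.finite_Icc (-B) B)))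
  rintro ⟨x, y, z⟩ ⟨h, rfl⟩
  change x ^ 2 * y + y ^ 2 * z + z ^ 2 * x = 1 at h
  have p5 : 0 ≤ |x| ^ 5 := by positivity
  have p3 : 0 ≤ |x| ^ 3 := by positivity
  have p2 : 0 ≤ |x| ^ 2 := by positivity
  have key : |y| ≤ B ∧ |z| ≤ B := by
    by_cases hx : x = 0
    · subst hx
      have h2 : y ^ 2 * z = 1 := by linarith
      have hy : y ∣ 1 := ⟨y * z, by linarith⟩
      have hz : z ∣ 1 := ⟨y ^ 2, by linarith⟩
      have hB2 : B = 2 := by rw [hB]; simp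
      rw [hB2]
      constructor
      · rcases Int.isUnit_iff.1 (isUnit_of_dvd_one hy) with h3 | h3 <;> simp [h3]
      · rcases Int.isUnit_iff.1 (isUnit_of_dvd_one hz) with h3 | h3 <;> simp [h3]
    · have h1 := bound_y h hx
      have h2 := bound_z h hx
      constructor <;> linarith
  exact ⟨rfl, ⟨(abs_le.1 key.1).1, (abs_le.1 key.1).2⟩, ⟨(abs_le.1 key.2).1, (abs_le.1 key.2).2⟩⟩

theorem fin_all (c : ℤ) : {p : ℤ × ℤ × ℤ | p ∈ Sol ∧ (p.1 = c ∨ p.2.1 = c ∨ p.2.2 = c)}.Finite := by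
  have h1 := fin_x c
  have h2 : ((fun p : ℤ × ℤ × ℤ => (p.2.2, p.1, p.2.1)) '' {p : ℤ × ℤ × ℤ | p ∈ Sol ∧ p.1 = c}).Finite :=
    h1.image _
  have h3 : ((fun p : ℤ × ℤ × ℤ => (p.2.1, p.2.2, p.1)) '' {p : ℤ × ℤ × ℤ | p ∈ Sol ∧ p.1 = c}).Finite :=
    h1.image _
  apply ((h1.union h2).union h3).subset
  rintro ⟨x, y, z⟩ ⟨h, h4 | h4 | h4⟩
  · exact Or.inl (Or.inl ⟨h, h4⟩)
  · refine Or.inl (Or.inr ⟨(y, z, x), ⟨?_, h4⟩, rfl⟩)
    change x ^ 2 * y + y ^ 2 * z + z ^ 2 * x = 1 at h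
    change y ^ 2 * z + z ^ 2 * x + x ^ 2 * y = 1
    linarith
  · refine Or.inr ⟨(z, x, y), ⟨?_, h4⟩, rfl⟩
    change x ^ 2 * y + y ^ 2 * z + z ^ 2 * x = 1 at h
    change z ^ 2 * x + x ^ 2 * y + y ^ 2 * z = 1
    linarith

/-- integer square root by bits -/
def go : ℕ → ℕ → ℕ → ℕ
  | 0, r, _ => r
  | k + 1, r, n => if (r + 2 ^ k) * (r + 2 ^ k) ≤ n then go k (r + 2 ^ k) n else go k r n

theorem go_spec (k : ℕ) : ∀ r s : ℕ, r ≤ s → s < r + 2 ^ k → go k r (s * s) = s := by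
  induction k with
  | zero =>
    intro r s h1 h2
    simp only [pow_zero] at h2
    simp only [go]
    omega
  | succ k ih =>
    intro r s h1 h2
    rw [pow_succ] at h2
    simp only [go]
    split_ifs with h
    · have h3 : r + 2 ^ k ≤ s := by
        by_contra hc
        push Not at hc
        have := Nat.mul_self_lt_mul_self hc
        omega
      exact ih _ _ h3 (by omega)
    · have h3 : s < r + 2 ^ k := by
        by_contra hc
        push Not at hc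
        exact h (Nat.mul_self_le_mul_self hc)
      exact ih _ _ h1 h3

def eqn (x y z : ℤ) : Bool := decide (x ^ 2 * y + y ^ 2 * z + z ^ 2 * x = 1)

def lst : List (ℤ × ℤ × ℤ) := [(-10, -53, 279), (-3, 4, 7), (-2, 1, -1), (-2, 3, -1), (-1, -2, 1),
  (-1, -2, 3), (-1, 1, 0), (-1, 1, 1), (1, -1, -2), (1, -1, 1), (1, 0, -1), (1, 0, 1), (1, 1, -1),
  (1, 1, 0), (3, -1, -2), (4, 7, -3), (7, -3, 4), (9, -19, -44)]

def chk (x y : ℤ) : Bool :=
  let D := y ^ 4 - 4 * x ^ 3 * y + 4 * x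
  let s : ℤ := (go 22 0 D.toNat : ℤ)
  (s * s != D) || ((!eqn x y ((s - y ^ 2) / (2 * x)) || lst.contains (x, y, (s - y ^ 2) / (2 * x))) &&
    (!eqn x y ((-s - y ^ 2) / (2 * x)) || lst.contains (x, y, (-s - y ^ 2) / (2 * x))))

def chkx (x : ℤ) (n : ℕ) : Bool := (List.range (2 * n + 1)).all fun i => chk x ((i : ℤ) - n)

theorem chk_all : (List.range 10).all (fun i => chkx ((i : ℤ) + 1) ((i + 1) ^ 3 + 1) &&
    chkx (-((i : ℤ) + 1)) ((i + 1) ^ 3 + 1)) = true := by decide +kernel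

theorem chk_true {x y : ℤ} (hx : x ≠ 0) (hx10 : |x| ≤ 10) (hy : |y| ≤ |x| ^ 3 + 1) :
    chk x y = true := by
  obtain ⟨n, hn⟩ : ∃ n : ℕ, n = x.natAbs := ⟨_, rfl⟩
  have hn1 : (n : ℤ) = |x| := by rw [hn]; exact Int.natCast_natAbs x
  have hn0 : 1 ≤ n := by
    have := Int.one_le_abs hx
    rw [← hn1] at this
    exact_mod_cast this
  have hn10 : n ≤ 10 := by
    rw [← hn1] at hx10
    exact_mod_cast hx10
  have h := chk_all
  rw [List.all_eq_true] at h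
  have h1 := h (n - 1) (List.mem_range.2 (by omega))
  rw [Bool.and_eq_true] at h1
  have e1 : ((n - 1 : ℕ) : ℤ) + 1 = n := by
    rw [Nat.cast_sub hn0]
    push_cast
    ring
  have e2 : n - 1 + 1 = n := by omega
  rw [e1, e2] at h1
  have hx' : x = n ∨ x = -(n : ℤ) := by
    rw [hn1]
    rcases abs_choice x with h2 | h2 <;> omega
  have h2 : chkx x (n ^ 3 + 1) = true := by
    rcases hx' with h2 | h2
    · rw [h2]; exact h1.1
    · rw [h2]; exact h1.2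
  unfold chkx at h2
  rw [List.all_eq_true] at h2
  have hy' : |y| ≤ ((n ^ 3 + 1 : ℕ) : ℤ) := by
    push_cast
    rw [hn1]
    exact hy
  rw [abs_le] at hy'
  have h3 := h2 (y + ((n ^ 3 + 1 : ℕ) : ℤ)).toNat (List.mem_range.2 (by omega))
  have e3 : (((y + ((n ^ 3 + 1 : ℕ) : ℤ)).toNat : ℕ) : ℤ) - ((n ^ 3 + 1 : ℕ) : ℤ) = y := by
    rw [Int.toNat_of_nonneg (by omega)]
    ring
  rw [e3] at h3
  exact h3

theorem mem_lst {x y z : ℤ} (h : x ^ 2 * y + y ^ 2 * z + z ^ 2 * x = 1) (hx : x ≠ 0)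
    (hx10 : |x| ≤ 10) : (x, y, z) ∈ lst := by
  have hby := bound_y h hx
  have hbz := bound_z h hx
  have hc := chk_true hx hx10 hby
  obtain ⟨w, hw⟩ : ∃ w : ℤ, w = 2 * x * z + y ^ 2 := ⟨_, rfl⟩
  have hw2 : w * w = y ^ 4 - 4 * x ^ 3 * y + 4 * x := by
    rw [hw]
    have : z ^ 2 * x = 1 - x ^ 2 * y - y ^ 2 * z := by linarith
    calc (2 * x * z + y ^ 2) * (2 * x * z + y ^ 2) =
        4 * x * (z ^ 2 * x) + 4 * x * z * y ^ 2 + y ^ 4 := by ring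
      _ = _ := by rw [this]; ring
  have hX0 : 0 ≤ |x| := abs_nonneg x
  have hx3 : |x| ^ 3 ≤ 10 ^ 3 := pow_le_pow_left₀ hX0 hx10 3
  have hx5 : |x| ^ 5 ≤ 10 ^ 5 := pow_le_pow_left₀ hX0 hx10 5
  have hx2 : |x| ^ 2 ≤ 10 ^ 2 := pow_le_pow_left₀ hX0 hx10 2
  have hy1 : |y| ≤ 1001 := by linarith
  have hz1 : |z| ≤ 100301 := by linarith
  have hwb : |w| ≤ 2 * (10 * 100301) + 1001 ^ 2 := by
    have h1 : |w| ≤ |2 * x * z| + |y ^ 2| := by rw [hw]; exact abs_add_le _ _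
    have h2 : |2 * x * z| = 2 * (|x| * |z|) := by
      rw [abs_mul, abs_mul]
      norm_num
      ring
    have h3 : |x| * |z| ≤ 10 * 100301 := mul_le_mul hx10 hz1 (abs_nonneg z) (by norm_num)
    have h4 : |y ^ 2| ≤ 1001 ^ 2 := by
      rw [abs_pow]
      exact pow_le_pow_left₀ (abs_nonneg y) hy1 2
    linarith
  have hwn : w.natAbs < 0 + 2 ^ 22 := by
    have h1 : ((w.natAbs : ℕ) : ℤ) < 2 ^ 22 := by
      rw [Int.natCast_natAbs]
      refine lt_of_le_of_lt hwb (by norm_num)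
    have h2 : w.natAbs < 2 ^ 22 := by exact_mod_cast h1
    omega
  have hgo := go_spec 22 0 w.natAbs (Nat.zero_le _) hwn
  have hD : (y ^ 4 - 4 * x ^ 3 * y + 4 * x).toNat = w.natAbs * w.natAbs := by
    rw [← hw2, ← Int.natAbs_mul_self, Int.toNat_natCast]
  unfold chk at hc
  simp only [hD, hgo] at hc
  have hs : ((w.natAbs : ℕ) : ℤ) * ((w.natAbs : ℕ) : ℤ) = y ^ 4 - 4 * x ^ 3 * y + 4 * x := by
    rw [← hw2]
    exact_mod_cast Int.natAbs_mul_self' w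
  rw [Bool.or_eq_true, Bool.and_eq_true] at hc
  rcases hc with hc | ⟨hc1, hc2⟩
  · rw [hs] at hc
    simp at hc
  · have hzz : (w - y ^ 2) / (2 * x) = z := by
      rw [hw]
      have : 2 * x * z + y ^ 2 - y ^ 2 = 2 * x * z := by ring
      rw [this]
      exact Int.mul_ediv_cancel_left z (mul_ne_zero two_ne_zero hx)
    have hq : eqn x y z = true := by
      unfold eqn
      rw [decide_eq_true_iff]
      exact h
    rcases Int.natAbs_eq w with h5 | h5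
    · rw [← h5, hzz, hq] at hc1
      simpa using hc1
    · have h6 : -((w.natAbs : ℕ) : ℤ) = w := h5.symm
      rw [h6, hzz, hq] at hc2
      simpa using hc2

/-- the solutions with a coordinate of absolute value at most ten, up to cyclic shifts -/
def reps : List (ℤ × ℤ × ℤ) := [(1, 0, 1), (1, 0, -1), (1, 1, -1), (1, -1, -2), (-1, -2, 3),
  (-3, 4, 7), (9, -19, -44), (-10, -53, 279)]

theorem small_x {x y z : ℤ} (h : x ^ 2 * y + y ^ 2 * z + z ^ 2 * x = 1) (hx10 : |x| ≤ 10) :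
    (x, y, z) ∈ reps ∨ (y, z, x) ∈ reps ∨ (z, x, y) ∈ reps := by
  by_cases hx : x = 0
  · subst hx
    have hy : y ∣ 1 := ⟨y * z, by linarith⟩
    rcases Int.isUnit_iff.1 (isUnit_of_dvd_one hy) with h3 | h3
    · subst h3
      have hz : z = 1 := by linarith
      subst hz
      decide
    · subst h3
      have hz : z = 1 := by linarith
      subst hz
      decide
  · have h1 := mem_lst h hx hx10
    have h2 : ∀ p ∈ lst, p ∈ reps ∨ (p.2.1, p.2.2, p.1) ∈ reps ∨ (p.2.2, p.1, p.2.1) ∈ reps := by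
      decide
    exact h2 _ h1

/-- For all integers with `x²y + y²z + z²x = 1` and `x ≠ 0` one has `|y| ≤ |x|³ + 1` and
`|z| ≤ |x|⁵ + 3|x|² + 1`.  So for every `c` only finitely many solutions have a coordinate equal to
`c`, and there are infinitely many solutions if and only if there are solutions all of whose
coordinates are arbitrarily large in absolute value.  The solutions with a coordinate of absolute
value at most ten are the cyclic shifts of eight triples. -/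
theorem result :
    (∀ x y z : ℤ, x ^ 2 * y + y ^ 2 * z + z ^ 2 * x = 1 → x ≠ 0 →
      |y| ≤ |x| ^ 3 + 1 ∧ |z| ≤ |x| ^ 5 + 3 * |x| ^ 2 + 1) ∧
    (∀ c : ℤ, {p : ℤ × ℤ × ℤ | p.1 ^ 2 * p.2.1 + p.2.1 ^ 2 * p.2.2 + p.2.2 ^ 2 * p.1 = 1 ∧
      (p.1 = c ∨ p.2.1 = c ∨ p.2.2 = c)}.Finite) ∧
    ({p : ℤ × ℤ × ℤ | p.1 ^ 2 * p.2.1 + p.2.1 ^ 2 * p.2.2 + p.2.2 ^ 2 * p.1 = 1}.Infinite ↔
      ∀ B : ℕ, ∃ x y z : ℤ, x ^ 2 * y + y ^ 2 * z + z ^ 2 * x = 1 ∧
        B < |x| ∧ B < |y| ∧ B < |z|) ∧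
    (∀ x y z : ℤ, |x| ≤ 10 ∨ |y| ≤ 10 ∨ |z| ≤ 10 →
      (x ^ 2 * y + y ^ 2 * z + z ^ 2 * x = 1 ↔
        (x, y, z) ∈ reps ∨ (y, z, x) ∈ reps ∨ (z, x, y) ∈ reps)) := by
  refine ⟨fun x y z h hx => ⟨bound_y h hx, bound_z h hx⟩, fin_all, ⟨?_, ?_⟩, ?_⟩
  · intro hinf B
    by_contra hcon
    push Not at hcon
    apply hinf
    have hfin : (⋃ c ∈ Set.Icc (-(B : ℤ)) B,
        {p : ℤ × ℤ × ℤ | p ∈ Sol ∧ (p.1 = c ∨ p.2.1 = c ∨ p.2.2 = c)}).Finite :=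
      (Set.finite_Icc _ _).biUnion fun c _ => fin_all c
    apply hfin.subset
    rintro ⟨x, y, z⟩ h
    have h1 := hcon x y z h
    rw [Set.mem_iUnion₂]
    by_cases hx : (B : ℤ) < |x|
    · by_cases hy : (B : ℤ) < |y|
      · have hz := h1 hx hy
        exact ⟨z, ⟨(abs_le.1 hz).1, (abs_le.1 hz).2⟩, h, Or.inr (Or.inr rfl)⟩
      · push Not at hy
        exact ⟨y, ⟨(abs_le.1 hy).1, (abs_le.1 hy).2⟩, h, Or.inr (Or.inl rfl)⟩
    · push Not at hx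
      exact ⟨x, ⟨(abs_le.1 hx).1, (abs_le.1 hx).2⟩, h, Or.inl rfl⟩
  · intro hB hfin
    obtain ⟨M, hM⟩ := (hfin.image fun p => |p.1|).bddAbove
    obtain ⟨x, y, z, h, h1, -, -⟩ := hB M.toNat
    have h2 : |x| ≤ M := hM ⟨(x, y, z), h, rfl⟩
    have h3 : M ≤ (M.toNat : ℤ) := Int.self_le_toNat M
    linarith
  · intro x y z hsm
    constructor
    · intro h
      rcases hsm with h1 | h1 | h1
      · exact small_x h h1
      · have h2 : y ^ 2 * z + z ^ 2 * x + x ^ 2 * y = 1 := by linarith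
        rcases small_x h2 h1 with h3 | h3 | h3
        · exact Or.inr (Or.inl h3)
        · exact Or.inr (Or.inr h3)
        · exact Or.inl h3
      · have h2 : z ^ 2 * x + x ^ 2 * y + y ^ 2 * z = 1 := by linarith
        rcases small_x h2 h1 with h3 | h3 | h3
        · exact Or.inr (Or.inr h3)
        · exact Or.inl h3
        · exact Or.inr (Or.inl h3)
    · have hr : ∀ p ∈ reps, p.1 ^ 2 * p.2.1 + p.2.1 ^ 2 * p.2.2 + p.2.2 ^ 2 * p.1 = 1 := by decide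
      rintro (h | h | h)
      · exact hr _ h
      · have := hr _ h
        simp only at this
        linarith
      · have := hr _ h
        simp only at this
        linarith

end Pool.Agent.Results.MP_e005ea_nt.FiniteFibres
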